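import Mathlib
import Pool.Prelude.Def_F_458e953d
import Pool.Agent.Helper22.Eff

set_option autoImplicit false

namespace Pool.Agent.Results.MP_c2284b_lc.EffectiveCompleteness

open N68a2faeb N793a5b8e Pool.Agent.Helper22

/-- A language is complete for `NP ∩ coNP` iff it is effectively complete: the reductions can be
found from the presentations by one polynomial time function, with padding whose length is a
polynomial depending on the presentation. If this polynomial does not depend on the presentation
then `NP = coNP`, and conversely. -/
theorem result :
    (∀ L : DecisionProblem, IsCompleteFor (NP ∩ coNP) L ↔ EffectivelyComplete L) ∧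
    ((∃ L, UniformlyEffectivelyComplete L) → NP = coNP) ∧
    (NP = coNP → ∀ L₀, IsCompleteFor NP L₀ → UniformlyEffectivelyComplete L₀) :=
  ⟨fun _ => ⟨effectivelyComplete_of_complete, complete_of_effectivelyComplete⟩,
    fun ⟨_, h⟩ => np_eq_coNP_of_solved (solved_of_complete (uniform_of_uniformlyEffective h)),
    fun h _ h₀ => uniformlyEffective_of_uniform (complete_of_eq h h₀)⟩

end Pool.Agent.Results.MP_c2284b_lc.EffectiveCompleteness
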