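import Mathlib
import Pool.Prelude.Def_F_458e953d
import Pool.Agent.Helper22.OracleDefs
import Pool.Agent.Helper22.OracleTally

set_option autoImplicit false

namespace Pool.Agent.Results.MP_c2284b_lc.GenericOracles

open N68a2faeb N793a5b8e Pool.Agent.Helper22

/-- Either `NP ∩ coNP` has a complete language, and then all oracles are helpful, or the helpful
oracles form a meagre set, which contains the oracles relative to which `NP ∩ coNP` has a complete
language. On the other hand there are arbitrarily sparse helpful tally oracles. -/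
theorem result :
    ((∃ L : DecisionProblem, IsCompleteFor (NP ∩ coNP) L) ↔ Helpful = Set.univ) ∧
    ((¬ ∃ L : DecisionProblem, IsCompleteFor (NP ∩ coNP) L) ↔ IsMeagre Helpful) ∧
    HasCompleteRel ⊆ Helpful ∧
    ∀ s : ℕ → ℕ, ∃ T : Oracle, (∀ u, T u = true → ∀ b ∈ u, b = true) ∧
      (∀ u v, T u = true → T v = true → u.length < v.length → s u.length < v.length) ∧
      ∃ L ∈ NPo T ∩ coNPo T, ∀ A ∈ NP ∩ coNP, ManyOneReducible A L := by
  refine ⟨⟨fun ⟨_, h⟩ => helpful_of_complete h, fun h => complete_of_nonmeagre ?_⟩,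
    ⟨fun h => ?_, fun h => ?_⟩, hasCompleteRel_subset, fun s => ?_⟩
  · rw [h]
    exact not_isMeagre_univ
  · by_contra hm
    exact h (complete_of_nonmeagre hm)
  · rintro ⟨L, hL⟩
    rw [helpful_of_complete hL] at h
    exact not_isMeagre_univ h
  · obtain ⟨T, h1, h2, h3⟩ := sparse_tally s
    refine ⟨T, fun u hu b hb => ?_, h2, h3⟩
    rw [h1 u hu, un] at hb
    exact List.eq_of_mem_replicate hb

end Pool.Agent.Results.MP_c2284b_lc.GenericOracles
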