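import Mathlib
import Pool.Prelude.Def_F_458e953d
import Pool.Agent.Helper22.SparseDefs
import Pool.Agent.Helper22.SparseMain

set_option autoImplicit false

namespace Pool.Agent.Results.MP_c2284b_lc.SparseHard

open N68a2faeb N793a5b8e Pool.Agent.Helper22

/-- What follows if a sparse language is hard for `NP ∩ coNP`: total single valued NP functions can
be computed up to a polynomial time list of candidates; functions with polynomial time graph are
polynomial time; `UP ∩ coUP = P`; and if the sparse language is in NP (for instance complete for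
`NP ∩ coNP`) then all languages of `NP ∩ coNP` have input-oblivious certificates. -/
theorem result (S : DecisionProblem) (hS : Sparse S) (hard : HardForNPcapCoNP S) :
    (∀ h : List Bool → List Bool, IsNPFunction h →
      ∃ G : List Bool → List (List Bool), IsPolyTime G ∧ ∀ x, h x ∈ G x) ∧
    (∀ h : List Bool → List Bool,
      (∃ q : Polynomial ℕ, ∀ x, (h x).length ≤ q.eval x.length) →
      (∃ Gr : List Bool × List Bool → Bool, IsPolyTime Gr ∧ ∀ x y, Gr (x, y) = true ↔ y = h x) →
      IsPolyTime h) ∧
    {L | L ∈ UP ∧ Lᶜ ∈ UP} ⊆ P ∧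
    (S ∈ NP → ∀ A ∈ NP ∩ coNP, HasObliviousCertificates A) :=
  ⟨fun _ hh => list_of_sparse hS hard hh,
    fun _ hb ⟨_, hGr, hgr⟩ => poly_of_sparse hS hard hb hGr hgr,
    up_subset_of_sparse hS hard, fun hNP _ hA => oblivious_of_sparse hS hard hNP hA⟩

end Pool.Agent.Results.MP_c2284b_lc.SparseHard
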