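import Mathlib
import Pool.Prelude.Def_F_458e953d
import Pool.Agent.Helper22.Uniform

set_option autoImplicit false

namespace Pool.Agent.Results.MP_c2284b_lc.UniformCompleteness

open N68a2faeb N793a5b8e Pool.Agent.Helper22

/-- Uniformly complete languages for `NP ∩ coNP` exist only if `NP = coNP`; even a uniform
reduction of the valid instances to total NP search problems forces `NP = coNP`; and if
`NP = coNP` then every NP-complete language is uniformly complete for `NP ∩ coNP`. -/
theorem result :
    (((∃ L, UniformlyComplete L) ∨ SolvedByTFNP) → NP = coNP) ∧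
    (∀ L₀, IsCompleteFor NP L₀ →
      List.TFAE [NP = coNP, UniformlyComplete L₀, ∃ L, UniformlyComplete L, SolvedByTFNP]) := by
  refine ⟨?_, fun L₀ h₀ => ?_⟩
  · rintro (⟨L, h⟩ | h)
    · exact np_eq_coNP_of_solved (solved_of_complete h)
    · exact np_eq_coNP_of_solved h
  tfae_have 1 → 2 := fun h => complete_of_eq h h₀
  tfae_have 2 → 3 := fun h => ⟨L₀, h⟩
  tfae_have 3 → 4 := fun ⟨L, h⟩ => solved_of_complete h
  tfae_have 4 → 1 := np_eq_coNP_of_solved
  tfae_finish

end Pool.Agent.Results.MP_c2284b_lc.UniformCompleteness
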